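import Pool.Agent.W2helper22.CU.Stmts

/-!
Project CU (helper22), piece GENERAL.
-/

set_option autoImplicit false

namespace Pool.Agent.W2helper71.CU

open Filter Pool.Agent.H540R2 Pool.Agent.W2helper86.KQ Pool.Agent.W2helper22.CU

/-- the length of the cliques in the host -/
noncomputable def Kf (c : ℝ) (k0 j k : ℕ) : ℕ := ⌈264 * (k : ℝ) * (j + 1) / c ^ 2⌉₊ + k0

/-- the exponent -/
noncomputable def ex (c : ℝ) (k0 : ℕ) (g : ℕ → ℝ) (j k : ℕ) : ℝ :=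
  (16 / c + 1) * (4 * (1 / ((j : ℝ) + 1)) * k + max (g (Kf c k0 j k)) 0)

lemma ex_nonneg {c : ℝ} (hc : 0 < c) (k0 : ℕ) (g : ℕ → ℝ) (j k : ℕ) : 0 ≤ ex c k0 g j k := by
  unfold ex
  have h1 : 0 ≤ max (g (Kf c k0 j k)) 0 := le_max_right _ _
  positivity

/-- one value of `j` and `k` -/
lemma step (hT : P_TRANSFER) (hV : P_TRIV) {H : ∀ k n : ℕ, SimpleGraph (Fin n)} {c : ℝ}
    (hc : 0 < c) (hc1 : c ≤ 1) {k0 : ℕ}
    (hmany : ∀ k ≥ k0, ∀ᶠ n : ℕ in atTop, (n : ℝ) ^ (c * k) ≤ cliques (H k n) k)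
    {f : ℕ → ℕ} {g : ℕ → ℝ}
    (hC : ∀ k n : ℕ, 1 ≤ k → 2 ≤ n → ∃ C : Circuit (n.choose 2),
      (C.size : ℝ) ≤ f k * (n : ℝ) ^ g k ∧ Decides (H k n) k C) (j k : ℕ) (hk : 1 ≤ k) :
    ∃ F : ℕ, ∀ n : ℕ, 2 ≤ n → ∃ C : Circuit (n.choose 2),
      (C.size : ℝ) ≤ F * (n : ℝ) ^ ex c k0 g j k ∧ Decides ⊤ k C := by
  classical
  have hk' : (1 : ℝ) ≤ k := by exact_mod_cast hk
  set ε : ℝ := 1 / ((j : ℝ) + 1) with hε
  have hj : (0 : ℝ) < (j : ℝ) + 1 := by positivity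
  have hε0 : 0 < ε := by positivity
  have hε1 : ε ≤ 1 := by
    rw [hε, div_le_one hj]
    have : (0 : ℝ) ≤ j := by positivity
    linarith
  set K := Kf c k0 j k with hK
  have hKge : 264 * (k : ℝ) * (j + 1) / c ^ 2 ≤ K := by
    rw [hK]
    unfold Kf
    push_cast
    have h1 := Nat.le_ceil (264 * (k : ℝ) * (j + 1) / c ^ 2)
    have h2 : (0 : ℝ) ≤ k0 := by positivity
    linarith
  have hKk0 : k0 ≤ K := by
    rw [hK]; unfold Kf; omega
  have hcond : 264 * (k : ℝ) ≤ ε * c ^ 2 * K := by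
    have hc2 : 0 < c ^ 2 := by positivity
    rw [div_le_iff₀ hc2] at hKge
    have h1 : ε * (264 * (k : ℝ) * (j + 1)) ≤ ε * (K * c ^ 2) :=
      mul_le_mul_of_nonneg_left hKge hε0.le
    have h2 : ε * (264 * (k : ℝ) * (j + 1)) = 264 * (k : ℝ) := by
      rw [hε]; field_simp
    calc 264 * (k : ℝ) = ε * (264 * (k : ℝ) * (j + 1)) := h2.symm
      _ ≤ ε * (K * c ^ 2) := h1
      _ = ε * c ^ 2 * K := by ring
  have hK1 : 1 ≤ K := by
    by_contra h
    have h0 : K = 0 := by omega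
    rw [h0] at hcond
    simp only [CharP.cast_eq_zero, mul_zero] at hcond
    linarith
  obtain ⟨N0, hN0⟩ := eventually_atTop.1 ((hT c ε hc hc1 hε0 hε1 K k hk hcond).and
    (hmany K hKk0))
  set n0 := max N0 2 with hn0
  set F0 : ℕ := ∑ n ∈ Finset.range n0, ((k ^ 2 + 1) * cliques (⊤ : SimpleGraph (Fin n)) k + 1)
    with hF0
  refine ⟨f K + 1 + F0, fun n hn => ?_⟩
  have hn1 : (1 : ℝ) ≤ n := by
    have : (2 : ℝ) ≤ n := by exact_mod_cast hn
    linarith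
  have hn2 : (2 : ℝ) ≤ n := by exact_mod_cast hn
  have hnpos : (0 : ℝ) < n := by linarith
  have he0 := ex_nonneg hc k0 g j k
  have hne : (1 : ℝ) ≤ (n : ℝ) ^ ex c k0 g j k := Real.one_le_rpow hn1 he0
  rcases lt_or_ge n n0 with hlt | hge
  · obtain ⟨C, -, hs, hd⟩ := hV n k ⊤ hk
    refine ⟨C, ?_, hd⟩
    have h1 : C.size ≤ F0 := by
      refine hs.trans ?_
      rw [hF0]
      exact Finset.single_le_sum (f := fun n =>
        (k ^ 2 + 1) * cliques (⊤ : SimpleGraph (Fin n)) k + 1) (fun _ _ => Nat.zero_le _)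
        (Finset.mem_range.2 hlt)
    have h2 : (C.size : ℝ) ≤ ((f K + 1 + F0 : ℕ) : ℝ) := by
      exact_mod_cast h1.trans (Nat.le_add_left _ _)
    calc (C.size : ℝ) ≤ ((f K + 1 + F0 : ℕ) : ℝ) * 1 := by rw [mul_one]; exact h2
      _ ≤ _ := mul_le_mul_of_nonneg_left hne (by positivity)
  · -- the main case
    set N := ⌈(n : ℝ) ^ (16 / c)⌉₊ with hN
    have h16 : 1 ≤ 16 / c := by
      rw [le_div_iff₀ hc]; linarith
    have hNge : (n : ℝ) ^ (16 / c) ≤ N := Nat.le_ceil _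
    have hnN : (n : ℝ) ≤ N := by
      calc (n : ℝ) = (n : ℝ) ^ (1 : ℝ) := (Real.rpow_one _).symm
        _ ≤ (n : ℝ) ^ (16 / c) := Real.rpow_le_rpow_of_exponent_le hn1 h16
        _ ≤ N := hNge
    have hnN' : n ≤ N := by exact_mod_cast hnN
    have hNN0 : N0 ≤ N := (le_max_left _ _).trans (hge.trans hnN')
    have hN1 : (1 : ℝ) ≤ N := hn1.trans hnN
    have hnN16 : (n : ℝ) ≤ (N : ℝ) ^ (c / 16) := by
      calc (n : ℝ) = ((n : ℝ) ^ (16 / c)) ^ (c / 16) := by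
            rw [← Real.rpow_mul hnpos.le]
            have : 16 / c * (c / 16) = 1 := by field_simp
            rw [this, Real.rpow_one]
        _ ≤ (N : ℝ) ^ (c / 16) :=
            Real.rpow_le_rpow (Real.rpow_nonneg hnpos.le _) hNge (by positivity)
    have hNA : (N : ℝ) ≤ (n : ℝ) ^ (16 / c + 1) := by
      have h1 : (N : ℝ) < (n : ℝ) ^ (16 / c) + 1 := Nat.ceil_lt_add_one (Real.rpow_nonneg hnpos.le _)
      have h2 : (1 : ℝ) ≤ (n : ℝ) ^ (16 / c) := Real.one_le_rpow hn1 (by linarith)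
      rw [Real.rpow_add hnpos, Real.rpow_one]
      nlinarith
    obtain ⟨hTN, hcl⟩ := hN0 N hNN0
    obtain ⟨C0, hs0, hd0⟩ := hC K N hK1 (hn.trans hnN')
    obtain ⟨C', hs', -, hd'⟩ := hTN (H K N) hcl n hn hnN16 C0 hd0
    refine ⟨C', ?_, hd'⟩
    set m := max (g K) 0 with hm
    have hm0 : 0 ≤ m := le_max_right _ _
    have hNm : (1 : ℝ) ≤ (N : ℝ) ^ m := Real.one_le_rpow hN1 hm0
    have h1 : (C0.size : ℝ) + 1 ≤ (f K + 1) * (N : ℝ) ^ m := by
      have h2 : (N : ℝ) ^ g K ≤ (N : ℝ) ^ m :=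
        Real.rpow_le_rpow_of_exponent_le hN1 (le_max_left _ _)
      have h3 : (f K : ℝ) * (N : ℝ) ^ g K ≤ f K * (N : ℝ) ^ m :=
        mul_le_mul_of_nonneg_left h2 (by positivity)
      nlinarith
    have hx0 : 0 ≤ 4 * ε * k + m := by positivity
    have h2 : (C'.size : ℝ) ≤ (f K + 1) * (N : ℝ) ^ (4 * ε * k + m) := by
      calc (C'.size : ℝ) ≤ (N : ℝ) ^ (4 * ε * k) * (C0.size + 1) := hs'
        _ ≤ (N : ℝ) ^ (4 * ε * k) * ((f K + 1) * (N : ℝ) ^ m) :=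
            mul_le_mul_of_nonneg_left h1 (Real.rpow_nonneg (by linarith) _)
        _ = (f K + 1) * (N : ℝ) ^ (4 * ε * k + m) := by
            rw [Real.rpow_add (by linarith : (0 : ℝ) < N)]
            ring
    have h3 : (N : ℝ) ^ (4 * ε * k + m) ≤ (n : ℝ) ^ ex c k0 g j k := by
      have e1 : ex c k0 g j k = (16 / c + 1) * (4 * ε * k + m) := rfl
      rw [e1, Real.rpow_mul hnpos.le]
      exact Real.rpow_le_rpow (by linarith) hNA hx0
    calc (C'.size : ℝ) ≤ (f K + 1) * (N : ℝ) ^ (4 * ε * k + m) := h2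
      _ ≤ (f K + 1) * (n : ℝ) ^ ex c k0 g j k := mul_le_mul_of_nonneg_left h3 (by positivity)
      _ ≤ ((f K + 1 + F0 : ℕ) : ℝ) * (n : ℝ) ^ ex c k0 g j k := by
          refine mul_le_mul_of_nonneg_right ?_ (by positivity)
          push_cast
          have : (0 : ℝ) ≤ F0 := by positivity
          linarith

/-- the exponents for one `j` -/
lemma ex_small {c : ℝ} (hc : 0 < c) (hc1 : c ≤ 1) (k0 : ℕ) {g : ℕ → ℝ}
    (hg : Tendsto (fun k : ℕ => g k / k) atTop (nhds 0)) {δ : ℝ} (hδ : 0 < δ) :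
    ∃ j : ℕ, ∀ᶠ k : ℕ in atTop, ex c k0 g j k + 1 ≤ δ * k := by
  set A : ℝ := 16 / c + 1 with hA
  have hA0 : 0 < A := by positivity
  obtain ⟨j, hj⟩ := exists_nat_gt (12 * A / δ)
  refine ⟨j, ?_⟩
  have hj' : A * (4 * (1 / ((j : ℝ) + 1))) ≤ δ / 3 := by
    have hj0 : (0 : ℝ) < (j : ℝ) + 1 := by positivity
    rw [div_lt_iff₀ hδ] at hj
    have : A * (4 * (1 / ((j : ℝ) + 1))) = 4 * A / ((j : ℝ) + 1) := by field_simp
    rw [this, div_le_div_iff₀ hj0 (by norm_num : (0 : ℝ) < 3)]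
    nlinarith
  set B : ℝ := 264 * ((j : ℝ) + 1) / c ^ 2 + 1 + k0 with hB
  have hB0 : 0 < B := by positivity
  have hKB : ∀ k : ℕ, 1 ≤ k → (Kf c k0 j k : ℝ) ≤ B * k := by
    intro k hk
    have hk' : (1 : ℝ) ≤ k := by exact_mod_cast hk
    unfold Kf
    push_cast
    have h1 : ((⌈264 * (k : ℝ) * (j + 1) / c ^ 2⌉₊ : ℕ) : ℝ) < 264 * (k : ℝ) * (j + 1) / c ^ 2 + 1 :=
      Nat.ceil_lt_add_one (by positivity)
    have h2 : (0 : ℝ) ≤ k0 := by positivity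
    have h3 : B * k = 264 * (k : ℝ) * (j + 1) / c ^ 2 + k + k0 * k := by
      rw [hB]; ring
    rw [h3]
    nlinarith
  have hKk : ∀ k : ℕ, k ≤ Kf c k0 j k := by
    intro k
    have h1 : (k : ℝ) ≤ 264 * (k : ℝ) * (j + 1) / c ^ 2 := by
      have hc2 : 0 < c ^ 2 := by positivity
      rw [le_div_iff₀ hc2]
      have h2 : c ^ 2 ≤ 1 := by nlinarith
      have h3 : (0 : ℝ) ≤ k := by positivity
      have h4 : (0 : ℝ) ≤ (k : ℝ) * j := by positivity
      nlinarith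
    have h2 : (k : ℝ) ≤ (Kf c k0 j k : ℝ) := by
      unfold Kf
      push_cast
      have h3 := Nat.le_ceil (264 * (k : ℝ) * (j + 1) / c ^ 2)
      have h4 : (0 : ℝ) ≤ k0 := by positivity
      linarith
    exact_mod_cast h2
  have hKt : Tendsto (fun k => Kf c k0 j k) atTop atTop :=
    tendsto_atTop_mono hKk tendsto_id
  set η : ℝ := δ / (3 * A * B) with hη
  have hη0 : 0 < η := by positivity
  have hev : ∀ᶠ K : ℕ in atTop, g K / K < η := (tendsto_order.1 hg).2 η hη0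
  filter_upwards [hKt.eventually hev, eventually_ge_atTop 1,
    eventually_ge_atTop ⌈3 / δ⌉₊] with k h1 h2 h3
  have hk' : (1 : ℝ) ≤ k := by exact_mod_cast h2
  have hK1 : (0 : ℝ) < (Kf c k0 j k : ℝ) := by
    have : (k : ℝ) ≤ (Kf c k0 j k : ℝ) := by exact_mod_cast hKk k
    linarith
  rw [div_lt_iff₀ hK1] at h1
  have h4 : max (g (Kf c k0 j k)) 0 ≤ η * (B * k) := by
    apply max_le
    · exact h1.le.trans (mul_le_mul_of_nonneg_left (hKB k h2) hη0.le)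
    · positivity
  have h5 : A * (η * (B * k)) = δ / 3 * k := by
    rw [hη]
    field_simp
  have h6 : 1 ≤ δ / 3 * k := by
    have h7 : 3 / δ ≤ k := (Nat.le_ceil _).trans (by exact_mod_cast h3)
    rw [div_le_iff₀ hδ] at h7
    linarith
  have h8 : ex c k0 g j k = A * (4 * (1 / ((j : ℝ) + 1))) * k +
      A * max (g (Kf c k0 j k)) 0 := by
    unfold ex
    ring
  rw [h8]
  have h9 := mul_le_mul_of_nonneg_left h4 hA0.le
  have h10 := mul_le_mul_of_nonneg_right hj' (by linarith : (0 : ℝ) ≤ k)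
  rw [h5] at h9
  linarith

/-- Piece GENERAL. -/
theorem p_general (hT : P_TRANSFER) (hV : P_TRIV) : P_GENERAL := by
  classical
  rintro H ⟨c0, hc0, hmany0⟩
  constructor
  · rintro ⟨f, g, hg, hC⟩
    set c := min c0 1 with hc
    have hcpos : 0 < c := lt_min hc0 one_pos
    have hc1 : c ≤ 1 := min_le_right _ _
    obtain ⟨k0, hk0⟩ := eventually_atTop.1 hmany0
    have hmany : ∀ k ≥ k0, ∀ᶠ n : ℕ in atTop, (n : ℝ) ^ (c * k) ≤ cliques (H k n) k := by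
      intro k hk
      filter_upwards [hk0 k hk, eventually_ge_atTop 1] with n h1 h2
      refine (Real.rpow_le_rpow_of_exponent_le (by exact_mod_cast h2) ?_).trans h1
      exact mul_le_mul_of_nonneg_right (min_le_left _ _) (by positivity)
    have hstep : ∀ j k : ℕ, ∃ F : ℕ, 1 ≤ k → ∀ n : ℕ, 2 ≤ n → ∃ C : Circuit (n.choose 2),
        (C.size : ℝ) ≤ F * (n : ℝ) ^ ex c k0 g j k ∧ Decides ⊤ k C := by
      intro j k
      by_cases hk : 1 ≤ k
      · obtain ⟨F, hF⟩ := step hT hV hcpos hc1 hmany hC j k hk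
        exact ⟨F, fun _ => hF⟩
      · exact ⟨0, fun h => absurd h hk⟩
    choose F hF using hstep
    have hmin : ∀ k : ℕ, ∃ jk : ℕ, ∀ j : ℕ, ex c k0 g jk k ≤ ex c k0 g j k + 1 := by
      intro k
      have hex : ∃ m : ℕ, ∃ j : ℕ, ⌊ex c k0 g j k⌋₊ = m := ⟨_, 0, rfl⟩
      obtain ⟨jk, hjk⟩ := Nat.find_spec hex
      refine ⟨jk, fun j => ?_⟩
      have h1 : ⌊ex c k0 g jk k⌋₊ ≤ ⌊ex c k0 g j k⌋₊ := by
        rw [hjk]
        exact Nat.find_min' hex ⟨j, rfl⟩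
      have h2 := Nat.lt_floor_add_one (ex c k0 g jk k)
      have h3 := Nat.floor_le (ex_nonneg hcpos k0 g j k)
      have h4 : ((⌊ex c k0 g jk k⌋₊ : ℕ) : ℝ) ≤ ((⌊ex c k0 g j k⌋₊ : ℕ) : ℝ) := by
        exact_mod_cast h1
      linarith
    choose J hJ using hmin
    refine ⟨fun k => F (J k) k, fun k => ex c k0 g (J k) k, ?_, fun k n hk hn => hF (J k) k hk n hn⟩
    refine tendsto_order.2 ⟨fun a ha => ?_, fun a ha => ?_⟩
    · refine Eventually.of_forall fun k => lt_of_lt_of_le ha ?_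
      exact div_nonneg (ex_nonneg hcpos k0 g _ k) (by positivity)
    · obtain ⟨j, hj⟩ := ex_small hcpos hc1 k0 hg (half_pos ha)
      filter_upwards [hj, eventually_ge_atTop 1] with k h1 h2
      have hk' : (1 : ℝ) ≤ k := by exact_mod_cast h2
      rw [div_lt_iff₀ (by linarith)]
      have h3 := hJ k j
      nlinarith
  · rintro ⟨f, g, hg, hC⟩
    refine ⟨f, g, hg, fun k n hk hn => ?_⟩
    obtain ⟨C, hs, hd⟩ := hC k n hk hn
    exact ⟨C, hs, fun x _ => hd x le_top⟩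

end Pool.Agent.W2helper71.CU
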